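import Pool.Agent.Helper72.RT.SVS

/-! # Row RDEG of the sheet for `N_10(H) ≥ c H ^ (1/9)` (MP_798d7d_nt); the calculus is helper72's -/

set_option autoImplicit false

namespace Pool.Helper70.RT

open Polynomial

namespace S17D

section
variable {K σ : Type*} [CommRing K]

/-- all coefficients have total degree at most `n` -/
def D (n : ℕ) (p : Polynomial (MvPolynomial σ K)) : Prop := ∀ k, (p.coeff k).totalDegree ≤ n

theorem D.mono {n m : ℕ} {p : Polynomial (MvPolynomial σ K)} (h : D n p) (hn : n ≤ m) : D m p :=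
  fun k => (h k).trans hn

theorem D.add {n m : ℕ} {p q : Polynomial (MvPolynomial σ K)} (hp : D n p) (hq : D m q) :
    D (max n m) (p + q) := by
  intro k
  rw [coeff_add]
  exact (MvPolynomial.totalDegree_add _ _).trans (max_le_max (hp k) (hq k))

theorem D.neg {n : ℕ} {p : Polynomial (MvPolynomial σ K)} (hp : D n p) : D n (-p) := by
  intro k
  rw [coeff_neg, MvPolynomial.totalDegree_neg]
  exact hp k

theorem D.sub {n m : ℕ} {p q : Polynomial (MvPolynomial σ K)} (hp : D n p) (hq : D m q) :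
    D (max n m) (p - q) := by
  rw [sub_eq_add_neg]
  exact hp.add hq.neg

theorem D.mul {n m : ℕ} {p q : Polynomial (MvPolynomial σ K)} (hp : D n p) (hq : D m q) :
    D (n + m) (p * q) := by
  intro k
  rw [coeff_mul]
  refine MvPolynomial.totalDegree_finsetSum_le fun x _ => ?_
  exact (MvPolynomial.totalDegree_mul _ _).trans (Nat.add_le_add (hp x.1) (hq x.2))

theorem D.C {n : ℕ} {a : MvPolynomial σ K} (h : a.totalDegree ≤ n) :
    D n (Polynomial.C a : Polynomial (MvPolynomial σ K)) := by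
  intro k
  rw [coeff_C]
  split_ifs
  · exact h
  · rw [MvPolynomial.totalDegree_zero]
    exact Nat.zero_le _

theorem D.X : D 0 (Polynomial.X : Polynomial (MvPolynomial σ K)) := by
  intro k
  rw [coeff_X]
  split_ifs
  · rw [MvPolynomial.totalDegree_one]
  · rw [MvPolynomial.totalDegree_zero]

theorem D.num (n : ℕ) [n.AtLeastTwo] :
    D 0 (OfNat.ofNat n : Polynomial (MvPolynomial σ K)) := by
  rw [← map_ofNat (Polynomial.C : MvPolynomial σ K →+* Polynomial (MvPolynomial σ K)) n]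
  refine D.C ?_
  rw [← map_ofNat (MvPolynomial.C : K →+* MvPolynomial σ K) n, MvPolynomial.totalDegree_C]

theorem D.one : D 0 (1 : Polynomial (MvPolynomial σ K)) := by
  rw [← map_one (Polynomial.C : MvPolynomial σ K →+* Polynomial (MvPolynomial σ K))]
  refine D.C ?_
  rw [MvPolynomial.totalDegree_one]

theorem D.pow {n : ℕ} {p : Polynomial (MvPolynomial σ K)} (hp : D n p) (k : ℕ) :
    D (k * n) (p ^ k) := by
  induction k with
  | zero =>
    rw [pow_zero, zero_mul]
    exact D.one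
  | succ k ih =>
    rw [pow_succ, Nat.succ_mul]
    exact ih.mul hp

end

section
variable {K : Type*} [CommRing K] {U V : Polynomial (MvPolynomial (Fin 2) K)}

theorem de2 (hU : D 1 U) (hV : D 1 V) : D 2 (e2 U V) := by
  unfold e2
  exact ((((D.num 366).neg).mul (hU.pow 2)).add (((D.num 12).mul (hU)).mul (hV))).sub ((D.num
    5340).mul (hV.pow 2))

theorem de3 (hU : D 1 U) (hV : D 1 V) : D 3 (e3 U V) := by
  unfold e3
  exact ((((D.num 300).mul (hU.pow 3)).sub (((D.num 136).mul (hU.pow 2)).mul (hV))).add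
    (((D.num 17464).mul (hU)).mul (hV.pow 2))).add ((D.num 127392).mul (hV.pow 3))

theorem dg0 (hU : D 1 U) (hV : D 1 V) : D 4 (g0 U V) := by
  unfold g0
  exact ((((((D.num 3600).neg).mul (hU.pow 4)).add (((D.num 40260).mul (hU.pow 3)).mul
    (hV))).sub (((D.num 91374).mul (hU.pow 2)).mul (hV.pow 2))).sub (((D.num 203652).mul
    (hU)).mul (hV.pow 3))).sub ((D.num 788694).mul (hV.pow 4))

theorem dh3 (hU : D 1 U) (hV : D 1 V) : D 5 (h3 U V) := by
  unfold h3
  exact (((((((D.num 101760).neg).mul (hU.pow 5)).sub (((D.num 3510784).mul (hU.pow 4)).mul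
    (hV))).add (((D.num 34030688).mul (hU.pow 3)).mul (hV.pow 2))).add (((D.num 79008256).mul
    (hU.pow 2)).mul (hV.pow 3))).sub (((D.num 170956928).mul (hU)).mul (hV.pow 4))).add ((D.num
    67619328).mul (hV.pow 5))

theorem dh2 (hU : D 1 U) (hV : D 1 V) : D 6 (h2 U V) := by
  unfold h2
  exact (((((((D.num 4535296).mul (hU.pow 6)).sub (((D.num 50624256).mul (hU.pow 5)).mul
    (hV))).add (((D.num 129233472).mul (hU.pow 4)).mul (hV.pow 2))).add (((D.num
    1707932096).mul (hU.pow 3)).mul (hV.pow 3))).add (((D.num 5598163008).mul (hU.pow 2)).mul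
    (hV.pow 4))).sub (((D.num 11334617088).mul (hU)).mul (hV.pow 5))).add ((D.num
    4694354176).mul (hV.pow 6))

theorem dh1 (hU : D 1 U) (hV : D 1 V) : D 7 (h1 U V) := by
  unfold h1
  exact ((((((((D.num 5784960).mul (hU.pow 7)).sub (((D.num 26871424).mul (hU.pow 6)).mul
    (hV))).sub (((D.num 893176416).mul (hU.pow 5)).mul (hV.pow 2))).add (((D.num 314499616).mul
    (hU.pow 4)).mul (hV.pow 3))).add (((D.num 46173836384).mul (hU.pow 3)).mul (hV.pow 4))).add
    (((D.num 106997185152).mul (hU.pow 2)).mul (hV.pow 5))).sub (((D.num 237460178048).mul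
    (hU)).mul (hV.pow 6))).add ((D.num 103693595136).mul (hV.pow 7))

theorem dh0 (hU : D 1 U) (hV : D 1 V) : D 8 (h0 U V) := by
  unfold h0
  exact (((((((((D.num 2822400).mul (hU.pow 8)).sub (((D.num 105198720).mul (hU.pow 7)).mul
    (hV))).add (((D.num 2729107264).mul (hU.pow 6)).mul (hV.pow 2))).sub (((D.num
    23024181984).mul (hU.pow 5)).mul (hV.pow 3))).sub (((D.num 7559713232).mul (hU.pow 4)).mul
    (hV.pow 4))).add (((D.num 442707061248).mul (hU.pow 3)).mul (hV.pow 5))).add (((D.num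
    583358372032).mul (hU.pow 2)).mul (hV.pow 6))).sub (((D.num 1601906060544).mul (hU)).mul
    (hV.pow 7))).add ((D.num 740566619136).mul (hV.pow 8))

theorem dq4 : D 0 (q4 (X : Polynomial (MvPolynomial (Fin 2) K))) := by
  unfold q4
  exact (D.num 4).mul D.X

theorem dq3 (hU : D 1 U) (hV : D 1 V) : D 5 (q3 U V) := dh3 hU hV

theorem dq2 (hU : D 1 U) (hV : D 1 V) : D 6 (q2 U V X) := by
  unfold q2
  exact ((((D.num 2).mul (de2 hU hV)).mul D.X).add (dh2 hU hV))

theorem dq1 (hU : D 1 U) (hV : D 1 V) : D 7 (q1 U V X) := by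
  unfold q1
  exact ((((D.num 2).neg).mul (de3 hU hV)).mul D.X).add (dh1 hU hV)

theorem dq0 (hU : D 1 U) (hV : D 1 V) : D 8 (q0 U V X) := by
  unfold q0
  exact (((D.X).pow 2).add (((D.num 2).mul (dg0 hU hV)).mul D.X)).add (dh0 hU hV)

theorem dfI (hU : D 1 U) (hV : D 1 V) : D 12 (fI U V X) := by
  unfold fI
  exact ((((D.num 12).mul dq4).mul (dq0 hU hV)).sub (((D.num 3).mul (dq3 hU hV)).mul
    (dq1 hU hV))).add ((dq2 hU hV).pow 2)

theorem dfJ (hU : D 1 U) (hV : D 1 V) : D 18 (fJ U V X) := by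
  unfold fJ
  exact ((((((((D.num 72).mul dq4).mul (dq2 hU hV)).mul (dq0 hU hV)).add
    ((((D.num 9).mul (dq3 hU hV)).mul (dq2 hU hV)).mul (dq1 hU hV))).sub
    (((D.num 27).mul dq4).mul ((dq1 hU hV).pow 2))).sub
    (((D.num 27).mul (dq0 hU hV)).mul ((dq3 hU hV).pow 2))).sub
    ((D.num 2).mul ((dq2 hU hV).pow 3)))

theorem deg_Ru [Nontrivial K] :
    (Ru (MvPolynomial.X 0) (MvPolynomial.X 1) : MvPolynomial (Fin 2) K).totalDegree ≤ 1000 := by
  have hU : D 1 (Polynomial.C (MvPolynomial.X 0) : Polynomial (MvPolynomial (Fin 2) K)) :=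
    D.C (by rw [MvPolynomial.totalDegree_X])
  have hV : D 1 (Polynomial.C (MvPolynomial.X 1) : Polynomial (MvPolynomial (Fin 2) K)) :=
    D.C (by rw [MvPolynomial.totalDegree_X])
  have hI := dfI hU hV
  have hJ := dfJ hU hV
  have hent : ∀ i j, ((syl (pI (MvPolynomial.X 0) (MvPolynomial.X 1))
      (pJ (MvPolynomial.X 0) (MvPolynomial.X 1)) : Matrix (Fin 7) (Fin 7)
        (MvPolynomial (Fin 2) K)) i j).totalDegree ≤ 18 := by
    intro i j
    simp only [syl, Matrix.of_apply]
    split_ifs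
    · exact (hI _).trans (by norm_num)
    · rw [MvPolynomial.totalDegree_zero]
      norm_num
    · exact hJ _
    · rw [MvPolynomial.totalDegree_zero]
      norm_num
  unfold Ru
  rw [Matrix.det_apply']
  refine MvPolynomial.totalDegree_finsetSum_le fun s _ => ?_
  refine (MvPolynomial.totalDegree_mul _ _).trans ?_
  have h1 : (((Equiv.Perm.sign s : ℤˣ) : ℤ) : MvPolynomial (Fin 2) K).totalDegree = 0 := by
    rw [← map_intCast (MvPolynomial.C : K →+* MvPolynomial (Fin 2) K), MvPolynomial.totalDegree_C]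
  rw [h1, zero_add]
  refine (MvPolynomial.totalDegree_finsetProd _ _).trans ?_
  refine (Finset.sum_le_sum fun i _ => hent (s i) i).trans ?_
  simp

end

end S17D

open S17D in
theorem st_RDEG (h10 : ST_R10) : ST_RDEG := by
  intro q hq hqQ
  have : Fact q.Prime := ⟨hq⟩
  refine ⟨Ru (MvPolynomial.X 0) (MvPolynomial.X 1), ?_, deg_Ru, ?_⟩
  · intro h0
    have h1 := S72S.map_Ru (MvPolynomial.eval (![1, 0] : Fin 2 → ZMod q))
      (MvPolynomial.X 0 : MvPolynomial (Fin 2) (ZMod q)) (MvPolynomial.X 1)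
    rw [h0, map_zero] at h1
    simp only [MvPolynomial.eval_X] at h1
    have h2 := S72S.map_Ru (Int.castRingHom (ZMod q)) 1 0
    rw [map_one, map_zero] at h2
    have h3 : (Int.castRingHom (ZMod q)) (Ru 1 0) = 0 := by
      rw [h2]
      exact h1.symm
    have h4 : (q : ℤ) ∣ Ru 1 0 := (ZMod.intCast_zmod_eq_zero_iff_dvd _ q).1 h3
    have h5 := Nat.le_of_dvd (Int.natAbs_pos.2 h10) (Int.natCast_dvd.1 h4)
    unfold QQ at hqQ
    omega
  · intro u
    have h1 := S72S.map_Ru (MvPolynomial.eval u)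
      (MvPolynomial.X 0 : MvPolynomial (Fin 2) (ZMod q)) (MvPolynomial.X 1)
    simp only [MvPolynomial.eval_X] at h1
    exact h1

end Pool.Helper70.RT
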