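import Pool.Agent.Helper25.RT.BND
import Pool.Agent.Helper72.RT.SVS

/-! # Row RNZ of the sheet for `N_10(H) ≥ c H ^ (1/9)` (MP_798d7d_nt) -/

set_option autoImplicit false

namespace Pool.Helper70.RT

namespace S17N

open Polynomial
open Pool.Helper70.RT.S25

/-- all coefficients are at most `C m ^ n` -/
def BC (n : ℕ) (P : ℕ × ℕ × ℕ → ℤ[X]) : Prop := ∀ j, BO n (fun T => (P T).coeff j)

theorem BC.congr {n : ℕ} {P Q : ℕ × ℕ × ℕ → ℤ[X]} (h : BC n P) (e : ∀ T, Q T = P T) : BC n Q := by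
  have : Q = P := funext e
  rw [this]
  exact h

theorem BC.mono {n k : ℕ} {P : ℕ × ℕ × ℕ → ℤ[X]} (h : BC n P) (hk : n ≤ k) : BC k P :=
  fun j => (h j).mono hk

theorem BC.const {n : ℕ} (p : ℤ[X]) : BC n (fun _ => p) := fun j => BO.const n (p.coeff j)

theorem BC.ofC {n : ℕ} {f : ℕ × ℕ × ℕ → ℤ} (h : BO n f) : BC n (fun T => C (f T)) := by
  intro j
  by_cases hj : j = 0
  · subst hj
    exact h.congr (fun T => coeff_C_zero)
  · exact (BO.const n 0).congr (fun T => coeff_C_of_ne_zero hj)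

theorem BC.add {n : ℕ} {P Q : ℕ × ℕ × ℕ → ℤ[X]} (hp : BC n P) (hq : BC n Q) :
    BC n (fun T => P T + Q T) := fun j => ((hp j).add (hq j)).congr (fun T => coeff_add _ _ _)

theorem BC.sub {n : ℕ} {P Q : ℕ × ℕ × ℕ → ℤ[X]} (hp : BC n P) (hq : BC n Q) :
    BC n (fun T => P T - Q T) := fun j => ((hp j).sub (hq j)).congr (fun T => coeff_sub _ _ _)

theorem BC.mul {a b l : ℕ} {P Q : ℕ × ℕ × ℕ → ℤ[X]} (hp : BC a P) (hq : BC b Q)
    (hl : a + b ≤ l) : BC l (fun T => P T * Q T) := fun j =>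
  (BO.sum (Finset.HasAntidiagonal.antidiagonal j) l (fun (x : ℕ × ℕ) T => (P T).coeff x.1 * (Q T).coeff x.2)
    (fun x _ => (hp x.1).mul (hq x.2) hl)).congr (fun T => coeff_mul _ _ _)

theorem BC.cmul {n : ℕ} (c : ℤ[X]) {P : ℕ × ℕ × ℕ → ℤ[X]} (hp : BC n P) :
    BC n (fun T => c * P T) := (BC.const (n := 0) c).mul hp (by omega)

section
variable (U V : ℕ × ℕ × ℕ → ℤ) (hU : BO 1 U) (hV : BO 1 V)
include hU hV

theorem bc_q3 : BC 5 (fun T => q3 (C (U T)) (C (V T))) :=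
  (BC.ofC (bo_h3 U V hU hV)).congr (fun T => S72S.Ch3 _ _)

theorem bc_q2 : BC 6 (fun T => q2 (C (U T)) (C (V T)) X) := by
  refine ((((BC.ofC (bo_e2 U V hU hV)).mul (l := 2) (BC.const (n := 0) (2 * X)) (by omega)).mono
    (by omega)).add (BC.ofC (bo_h2 U V hU hV))).congr (fun T => ?_)
  unfold q2
  rw [S72S.Ce2, S72S.Ch2]
  ring

theorem bc_q1 : BC 7 (fun T => q1 (C (U T)) (C (V T)) X) := by
  refine ((((BC.ofC (bo_e3 U V hU hV)).mul (l := 3) (BC.const (n := 0) (-2 * X)) (by omega)).mono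
    (by omega)).add (BC.ofC (bo_h1 U V hU hV))).congr (fun T => ?_)
  unfold q1
  rw [S72S.Ce3, S72S.Ch1]
  ring

theorem bc_q0 : BC 8 (fun T => q0 (C (U T)) (C (V T)) X) := by
  refine (((BC.const (X ^ 2)).add (((BC.ofC (bo_g0 U V hU hV)).mul (l := 4) (BC.const (n := 0) (2 * X))
    (by omega)).mono (by omega))).add (BC.ofC (bo_h0 U V hU hV))).congr (fun T => ?_)
  unfold q0
  rw [S72S.Cg0, S72S.Ch0]
  ring

theorem bc_I : BC 18 (fun T => pI (U T) (V T)) := by
  have a3 := bc_q3 U V hU hV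
  have a2 := bc_q2 U V hU hV
  have a1 := bc_q1 U V hU hV
  have a0 := bc_q0 U V hU hV
  refine (((BC.cmul (48 * X) (a0.mono (by omega))).sub
    (BC.cmul 3 (a3.mul a1 (by omega)))).add (a2.mul a2 (by omega))).congr (fun T => ?_)
  unfold pI fI q4
  ring

theorem bc_J : BC 18 (fun T => pJ (U T) (V T)) := by
  have a3 := bc_q3 U V hU hV
  have a2 := bc_q2 U V hU hV
  have a1 := bc_q1 U V hU hV
  have a0 := bc_q0 U V hU hV
  refine (((((BC.cmul (288 * X) (a2.mul a0 (by omega))).add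
    (BC.cmul 9 ((a3.mul a2 (l := 11) (by omega)).mul a1 (by omega)))).sub
    (BC.cmul (108 * X) (a1.mul a1 (by omega)))).sub
    (BC.cmul 27 (a0.mul (a3.mul a3 (l := 10) (by omega)) (by omega)))).sub
    (BC.cmul 2 (a2.mul (a2.mul a2 (l := 12) (by omega)) (by omega)))).congr (fun T => ?_)
  unfold pJ fJ q4
  ring

theorem bo_syl (i j : Fin 7) : BO 18 (fun T => syl (pI (U T) (V T)) (pJ (U T) (V T)) i j) := by
  have hI := bc_I U V hU hV
  have hJ := bc_J U V hU hV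
  simp only [syl, Matrix.of_apply]
  split_ifs
  · exact hI _
  · exact BO.const _ _
  · exact hJ _
  · exact BO.const _ _

theorem bo_Ru : BO 126 (fun T => Ru (U T) (V T)) := by
  have h := bo_syl U V hU hV
  refine (BO.sum Finset.univ 126 (fun (σ : Equiv.Perm (Fin 7)) T =>
    (((Equiv.Perm.sign σ : ℤˣ) : ℤ)) *
      ∏ i, syl (pI (U T) (V T)) (pJ (U T) (V T)) (σ i) i) (fun σ _ => ?_)).congr (fun T => ?_)
  · refine BO.cmul _ ?_
    simp only [Fin.prod_univ_seven]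
    exact ((((((h _ _).mul (h _ _) (l := 36) (by omega)).mul (h _ _) (l := 54) (by omega)).mul
      (h _ _) (l := 72) (by omega)).mul (h _ _) (l := 90) (by omega)).mul (h _ _) (l := 108)
      (by omega)).mul (h _ _) (by omega)
  · unfold Ru
    rw [Matrix.det_apply']
    rfl

end

def M0 : Matrix (Fin 7) (Fin 7) ℤ :=
  !![19625538828860881698816, -5127096759496704, 32016384, 48, 0, 0, 0; 0,
    19625538828860881698816, -5127096759496704, 32016384, 48, 0, 0; 0, 0,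
    19625538828860881698816, -5127096759496704, 32016384, 48, 0; 0, 0, 0,
    19625538828860881698816, -5127096759496704, 32016384, 48;
    -6047957417134820546263895903305728, 3701602557496557025543323648, -963751878721484292096,
    124627573886976, -6476544, 0, 0; 0, -6047957417134820546263895903305728,
    3701602557496557025543323648, -963751878721484292096, 124627573886976, -6476544, 0; 0, 0,
    -6047957417134820546263895903305728, 3701602557496557025543323648, -963751878721484292096,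
    124627573886976, -6476544]

def M5 : Matrix (Fin 7) (Fin 7) (ZMod 5) :=
  !![1, 1, 4, 3, 0, 0, 0; 0, 1, 1, 4, 3, 0, 0; 0, 0, 1, 1, 4, 3, 0; 0, 0, 0, 1, 1, 4, 3; 2, 3,
    4, 1, 1, 0, 0; 0, 2, 3, 4, 1, 1, 0; 0, 0, 2, 3, 4, 1, 1]

def N5 : Matrix (Fin 7) (Fin 7) (ZMod 5) :=
  !![3, 4, 4, 0, 4, 3, 0; 0, 3, 4, 4, 0, 4, 3; 2, 3, 2, 0, 4, 4, 0; 0, 2, 3, 2, 0, 4, 4; 1, 4,
    4, 1, 2, 2, 2; 3, 3, 0, 3, 1, 3, 1; 4, 4, 1, 2, 3, 4, 0]

theorem pIb : pI (4 : ℤ) (-1) = C 48 * X ^ 3 + C 32016384 * X ^ 2 + C (-5127096759496704) * X +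
    C 19625538828860881698816 := by
  unfold pI fI q4 q3 q2 q1 q0 e2 e3 g0 h3 h2 h1 h0
  simp only [map_neg, map_one, map_ofNat]
  ring

theorem pJ_eq (U V : ℤ) : pJ U V = C (576 * e2 U V) * X ^ 4 +
    C (1152 * e2 U V * g0 U V + 288 * h2 U V - 432 * e3 U V ^ 2 - 16 * e2 U V ^ 3) * X ^ 3 +
    C (576 * e2 U V * h0 U V + 576 * h2 U V * g0 U V - 36 * h3 U V * e2 U V * e3 U V +
      432 * e3 U V * h1 U V - 27 * h3 U V ^ 2 - 24 * e2 U V ^ 2 * h2 U V) * X ^ 2 +
    C (288 * h2 U V * h0 U V + 18 * h3 U V * (e2 U V * h1 U V - e3 U V * h2 U V) -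
      108 * h1 U V ^ 2 - 54 * h3 U V ^ 2 * g0 U V - 12 * e2 U V * h2 U V ^ 2) * X +
    C (9 * h3 U V * h2 U V * h1 U V - 27 * h3 U V ^ 2 * h0 U V - 2 * h2 U V ^ 3) := by
  unfold pJ fJ q4 q3 q2 q1 q0
  rw [S72S.Ce2, S72S.Ce3, S72S.Cg0, S72S.Ch3, S72S.Ch2, S72S.Ch1, S72S.Ch0]
  simp only [map_add, map_sub, map_mul, map_pow, map_ofNat]
  ring

theorem pJb : pJ (4 : ℤ) (-1) = C (-6476544) * X ^ 4 + C 124627573886976 * X ^ 3 +
    C (-963751878721484292096) * X ^ 2 + C 3701602557496557025543323648 * X +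
    C (-6047957417134820546263895903305728) := by
  have b2 : e2 (4 : ℤ) (-1) = -11244 := by decide +kernel
  have b3 : e3 (4 : ℤ) (-1) = -36160 := by decide +kernel
  have bg : g0 (4 : ℤ) (-1) = -4934310 := by decide +kernel
  have c3 : h3 (4 : ℤ) (-1) = 956943360 := by decide +kernel
  have c2 : h2 (4 : ℤ) (-1) = 133795355904 := by decide +kernel
  have c1 : h1 (4 : ℤ) (-1) = -600642155520 := by decide +kernel
  have c0 : h0 (4 : ℤ) (-1) = 22877116646400 := by decide +kernel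
  rw [pJ_eq, b2, b3, bg, c3, c2, c1, c0]
  norm_num

theorem cIb (k : ℕ) : (pI (4 : ℤ) (-1)).coeff k = (if k = 3 then 48 else 0) +
    (if k = 2 then 32016384 else 0) + (if k = 1 then -5127096759496704 else 0) +
    (if k = 0 then 19625538828860881698816 else 0) := by
  rw [pIb]
  simp only [coeff_add, coeff_C_mul, coeff_X_pow, coeff_X, coeff_C, mul_ite, mul_one, mul_zero,
    eq_comm (a := 1) (b := k)]

theorem cJb (k : ℕ) : (pJ (4 : ℤ) (-1)).coeff k = (if k = 4 then -6476544 else 0) +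
    (if k = 3 then 124627573886976 else 0) + (if k = 2 then -963751878721484292096 else 0) +
    (if k = 1 then 3701602557496557025543323648 else 0) +
    (if k = 0 then -6047957417134820546263895903305728 else 0) := by
  rw [pJb]
  simp only [coeff_add, coeff_C_mul, coeff_X_pow, coeff_X, coeff_C, mul_ite, mul_one, mul_zero,
    eq_comm (a := 1) (b := k)]

theorem sylM0 : syl (pI (4 : ℤ) (-1)) (pJ (4 : ℤ) (-1)) = M0 := by
  ext i j
  unfold syl M0
  simp only [Matrix.of_apply, cIb, cJb]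
  fin_cases i <;> fin_cases j <;> rfl

theorem mapM0 : M0.map (Int.castRingHom (ZMod 5)) = M5 := by
  ext i j
  fin_cases i <;> fin_cases j <;> decide

theorem mulN5 : M5 * N5 = 1 := by decide +kernel

theorem Ru_base : (Int.castRingHom (ZMod 5)) (Ru (4 : ℤ) (-1)) ≠ 0 := by
  intro h
  unfold Ru at h
  rw [sylM0, RingHom.map_det, RingHom.mapMatrix_apply, mapM0] at h
  have h2 : (M5 * N5).det = 1 := by rw [mulN5, Matrix.det_one]
  rw [Matrix.det_mul, h, zero_mul] at h2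
  exact absurd h2 (by decide)

theorem five_MM : (5 : ℤ) ∣ MM := by
  unfold MM
  refine Dvd.dvd.mul_left ?_ _
  have h : 5 ∣ QQ.factorial := Nat.dvd_factorial (by norm_num) (by have := S72S.QQ_big; omega)
  exact_mod_cast Int.natCast_dvd_natCast.2 h

theorem Ru_ne (T : ℕ × ℕ × ℕ) : Ru (ww T).1 (ww T).2.1 ≠ 0 := by
  intro h
  have h5 := five_MM
  have hU : (Int.castRingHom (ZMod 5)) (ww T).1 = (Int.castRingHom (ZMod 5)) 4 := by
    have h6 : ((5 : ℕ) : ℤ) ∣ (ww T).1 - 4 := by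
      refine Dvd.dvd.trans (by exact_mod_cast h5) (?_ : MM ∣ (ww T).1 - 4)
      exact (cong_ww T).1
    have h7 := (ZMod.intCast_zmod_eq_zero_iff_dvd _ 5).2 h6
    push_cast at h7
    have h8 := sub_eq_zero.1 h7
    simpa using h8
  have hV : (Int.castRingHom (ZMod 5)) (ww T).2.1 = (Int.castRingHom (ZMod 5)) (-1) := by
    have h6 : ((5 : ℕ) : ℤ) ∣ (ww T).2.1 + 1 := by
      refine Dvd.dvd.trans (by exact_mod_cast h5) (?_ : MM ∣ (ww T).2.1 + 1)
      exact (cong_ww T).2.1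
    have h7 := (ZMod.intCast_zmod_eq_zero_iff_dvd _ 5).2 h6
    push_cast at h7
    have h8 := eq_neg_of_add_eq_zero_left h7
    simpa using h8
  have h1 := S72S.map_Ru (Int.castRingHom (ZMod 5)) (ww T).1 (ww T).2.1
  rw [hU, hV, ← S72S.map_Ru, h, map_zero] at h1
  exact Ru_base h1.symm

end S17N

open S17N in
theorem st_RNZ : ST_RNZ := by
  obtain ⟨C, hC, h⟩ := (bo_Ru _ _ S25.bo_U S25.bo_V).mono (show 126 ≤ 1000 by norm_num)
  refine ⟨C.toNat + 1, by omega, fun m hm T hT => ⟨Ru_ne T, (h m hm T hT).trans ?_⟩⟩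
  have hm1 : (0 : ℤ) ≤ (m : ℤ) ^ 1000 := by positivity
  refine mul_le_mul_of_nonneg_right ?_ hm1
  push_cast
  have := Int.self_le_toNat C
  linarith

end Pool.Helper70.RT
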