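import Pool.Agent.Helper17.RT.FIN
import Pool.Agent.Helper17.RT.RNZ
import Pool.Agent.Helper17.RT.RDEG
import Pool.Agent.Helper58.RS.GEN
import Pool.Agent.Helper44.R8.RANKQ
import Pool.Agent.Helper74.RT.REL
import Pool.Agent.Helper44.RT.CERT
import Pool.Agent.Helper28.RT.PTS
import Pool.Agent.Helper63.RT.PT12
import Pool.Agent.Helper25.RT.BND
import Pool.Agent.Helper72.RT.SVS
import Pool.Agent.Helper84.RT.SVL
import Pool.Agent.Helper91.RT.SIEVE
import Pool.Agent.Helper9.RT.RES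
import Pool.Agent.Helper9.RT.CURVE
import Pool.Agent.Helper53.RT.R10
import Pool.Agent.Helper70.RT.INJ
import Pool.Agent.Helper29.RT.PAIR

set_option autoImplicit false

namespace Pool.Helper70.RT

/-- Rank ten: `N_10(H) ≥ c H ^ (1/9)`. -/
theorem rank_ten : ST_FIN :=
  st_FIN (st_CERT st_REL (st_PTS st_PT1 st_PT2 st_REL) Pool.Helper17.R8.st_RANKQ)
    (st_BND st_REL)
    (st_SIEVE (st_SVS st_REL st_RES (st_RDEG st_R10)) (st_SVL st_REL st_RES st_RNZ))
    (st_PAIR st_REL st_CURVE st_INJ) Pool.Helper17.RS.st_GEN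

end Pool.Helper70.RT
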