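import Pool.Agent.Helper70.RT.Sheet
import Pool.Agent.Helper17.R8.FIN

set_option autoImplicit false

namespace Pool.Helper70.RT

open Pool.Helper17.RS (RS NR ST_GEN cnt_RS_fin)
open Pool.Helper17.R8 (fin_cs)

theorem fin_card_box (m : ℕ) : (Box m).card = m ^ 4 := by
  unfold Box
  rw [Finset.card_product, Finset.card_product]
  simp only [Finset.card_range]
  ring

theorem fin_cong (T : ℕ × ℕ × ℕ) : Cong (ww T) :=
  ⟨⟨(T.1 : ℤ), by simp [ww]⟩, ⟨(T.2.1 : ℤ), by simp only [ww]; ring⟩,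
    ⟨(T.2.2 : ℤ), by simp [ww]⟩⟩

theorem fin_main (hCERT : ST_CERT) (hBND : ST_BND) (hSIEVE : ST_SIEVE) (hPAIR : ST_PAIR) :
    ∃ C : ℤ, 1 ≤ C ∧ ∃ m0 : ℕ, ∀ m : ℕ, m0 ≤ m →
      (m : ℝ) ^ 4 / 412 ≤ ((RS 10 C (m ^ 3)).ncard : ℝ) := by
  classical
  obtain ⟨C, hC, hB⟩ := hBND
  obtain ⟨m0, hS⟩ := hSIEVE
  refine ⟨C, hC, max m0 1, fun m hm => ?_⟩
  have hm0 : m0 ≤ m := le_trans (le_max_left _ _) hm
  have hm1 : 1 ≤ m := le_trans (le_max_right _ _) hm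
  set bad := (Box m).filter (fun T => ∃ q : ℕ, q.Prime ∧ QQ < q ∧ (q : ℤ) ∣ cA (ww T) ∧
    (q : ℤ) ∣ cB (ww T)) with hbad
  set G := (Box m).filter (fun T => ¬ ∃ q : ℕ, q.Prime ∧ QQ < q ∧ (q : ℤ) ∣ cA (ww T) ∧
    (q : ℤ) ∣ cB (ww T)) with hG
  have hbc : 2 * bad.card ≤ m ^ 4 := hS m hm0
  have hsum : bad.card + G.card = m ^ 4 := by
    rw [hbad, hG, Finset.card_filter_add_card_filter_not, fin_card_box]
  have hGc : m ^ 4 ≤ 2 * G.card := by omega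
  set φ : ℕ × ℕ × ℕ → ℤ × ℤ := fun T => (cA (ww T), cB (ww T)) with hφ
  have hcs := fin_cs G φ
  have hpair : ((G ×ˢ G).filter (fun p => φ p.1 = φ p.2)).card ≤ 103 * m ^ 4 := by
    refine le_trans (Finset.card_le_card ?_) (hPAIR m hm1)
    intro p hp
    rw [Finset.mem_filter, Finset.mem_product] at hp ⊢
    refine ⟨⟨(Finset.mem_filter.1 hp.1.1).1, (Finset.mem_filter.1 hp.1.2).1⟩, ?_⟩
    have := hp.2
    simp only [hφ, Prod.mk.injEq] at this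
    exact this
  have hsub : ((G.image φ : Finset (ℤ × ℤ)) : Set (ℤ × ℤ)) ⊆ RS 10 C (m ^ 3) := by
    intro p hp
    rw [Finset.mem_coe, Finset.mem_image] at hp
    obtain ⟨T, hT, rfl⟩ := hp
    rw [hG, Finset.mem_filter] at hT
    obtain ⟨c1, c2, c3⟩ := hCERT (ww T) (fin_cong T)
    obtain ⟨b1, b2⟩ := hB m hm1 T hT.1
    refine ⟨c1, ?_, ?_, ?_, ?_⟩
    · rintro q hq ⟨h4, h6⟩
      have h4' : (q : ℤ) ∣ cA (ww T) := (dvd_pow_self _ (by norm_num)).trans h4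
      have h6' : (q : ℤ) ∣ cB (ww T) := (dvd_pow_self _ (by norm_num)).trans h6
      by_cases hqQ : q ≤ QQ
      · exact c2 q hq hqQ ⟨h4', h6'⟩
      · exact hT.2 ⟨q, hq, by omega, h4', h6'⟩
    · have : ((m ^ 3 : ℕ) : ℤ) ^ 4 = (m : ℤ) ^ 12 := by push_cast; ring
      rw [this]
      exact b1
    · have : ((m ^ 3 : ℕ) : ℤ) ^ 6 = (m : ℤ) ^ 18 := by push_cast; ring
      rw [this]
      exact b2
    · exact_mod_cast c3
  have hle : (G.image φ).card ≤ (RS 10 C (m ^ 3)).ncard := by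
    rw [← Set.ncard_coe_finset]
    exact Set.ncard_le_ncard hsub (cnt_RS_fin 10 C (m ^ 3))
  have hmpos : (0 : ℝ) < (m : ℝ) ^ 4 := by
    have : (0 : ℝ) < (m : ℝ) := by exact_mod_cast hm1
    positivity
  have e1 : (m : ℝ) ^ 4 ≤ 2 * (G.card : ℝ) := by exact_mod_cast hGc
  have e2 : (G.card : ℝ) ^ 2 ≤ ((G.image φ).card : ℝ) * (103 * (m : ℝ) ^ 4) := by
    have h := hcs.trans (Nat.mul_le_mul_left _ hpair)
    exact_mod_cast h
  have e3 : ((m : ℝ) ^ 4 / 2) ^ 2 ≤ (G.card : ℝ) ^ 2 :=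
    pow_le_pow_left₀ (by positivity) (by linarith) 2
  have e4 : ((G.image φ).card : ℝ) ≤ ((RS 10 C (m ^ 3)).ncard : ℝ) := by exact_mod_cast hle
  have e5 : (m : ℝ) ^ 4 * ((m : ℝ) ^ 4 / 412) ≤ (m : ℝ) ^ 4 * ((G.image φ).card : ℝ) := by
    nlinarith
  exact (le_of_mul_le_mul_left e5 hmpos).trans e4

theorem st_FIN (hCERT : ST_CERT) (hBND : ST_BND) (hSIEVE : ST_SIEVE) (hPAIR : ST_PAIR)
    (hGEN : ST_GEN) : ST_FIN := by
  obtain ⟨C, hC, m0, hm⟩ := fin_main hCERT hBND hSIEVE hPAIR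
  obtain ⟨c', hc', H₀, hH⟩ := hGEN 10 C hC (4 / 3) (1 / (412 * 16)) (by norm_num)
    (by norm_num) ((m0 + 2) ^ 3) (by
      intro N hN
      set x : ℝ := (N : ℝ) ^ ((1 : ℝ) / 3) with hx
      have hx0 : (0 : ℝ) ≤ x := by positivity
      have hx3 : x ^ 3 = (N : ℝ) := by
        rw [hx, ← Real.rpow_natCast, ← Real.rpow_mul (by positivity)]
        norm_num
      set m : ℕ := ⌊x⌋₊ with hmdef
      have hmx : (m : ℝ) ≤ x := Nat.floor_le hx0
      have hxm : x < (m : ℝ) + 1 := Nat.lt_floor_add_one x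
      have hbig : ((m0 : ℝ) + 2) ≤ x := by
        have h1 : (((m0 : ℝ) + 2)) ^ 3 ≤ x ^ 3 := by
          rw [hx3]
          exact_mod_cast hN
        exact le_of_pow_le_pow_left₀ (by norm_num) hx0 h1
      have hm0 : m0 ≤ m := by
        rw [hmdef]
        apply Nat.le_floor
        linarith
      have hm2 : x / 2 ≤ (m : ℝ) := by
        have : (0 : ℝ) ≤ (m0 : ℝ) := Nat.cast_nonneg _
        linarith
      have hmN : m ^ 3 ≤ N := by
        have h1 : (m : ℝ) ^ 3 ≤ x ^ 3 := pow_le_pow_left₀ (Nat.cast_nonneg _) hmx 3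
        rw [hx3] at h1
        exact_mod_cast h1
      have hsub : RS 10 C (m ^ 3) ⊆ RS 10 C N := by
        rintro p ⟨a1, a2, a3, a4, a5⟩
        have hle : ((m ^ 3 : ℕ) : ℤ) ≤ (N : ℤ) := by exact_mod_cast hmN
        have h0 : (0 : ℤ) ≤ ((m ^ 3 : ℕ) : ℤ) := by positivity
        refine ⟨a1, a2, a3.trans ?_, a4.trans ?_, a5⟩
        · exact mul_le_mul_of_nonneg_left (pow_le_pow_left₀ h0 hle 4) (by linarith)
        · exact mul_le_mul_of_nonneg_left (pow_le_pow_left₀ h0 hle 6) (by linarith)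
      have hcard : ((RS 10 C (m ^ 3)).ncard : ℝ) ≤ ((RS 10 C N).ncard : ℝ) := by
        exact_mod_cast Set.ncard_le_ncard hsub (cnt_RS_fin 10 C N)
      refine le_trans ?_ ((hm m hm0).trans hcard)
      have h1 : (x / 2) ^ 4 ≤ (m : ℝ) ^ 4 := pow_le_pow_left₀ (by positivity) hm2 4
      have h2 : (N : ℝ) ^ ((4 : ℝ) / 3) = x ^ 4 := by
        rw [hx, ← Real.rpow_natCast, ← Real.rpow_mul (by positivity)]
        norm_num
      rw [h2]
      have h3 : (x / 2) ^ 4 = x ^ 4 / 16 := by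
        rw [div_pow]
        norm_num
      rw [h3] at h1
      linarith)
  refine ⟨c', hc', H₀, fun H hH' => ?_⟩
  have := hH H hH'
  have he : ((4 : ℝ) / 3) / 12 = 1 / 9 := by norm_num
  rwa [he] at this

end Pool.Helper70.RT
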